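import Pool.Agent.Helper52.SG.Goals2
import Mathlib

/-!
# Project SG, packet LEME
-/

set_option autoImplicit false

namespace Pool.Agent.Helper26.SG.LEME

open Subgroup Pool.H83Shunkov Pool.Agent.Helper29.SH Pool.Agent.Helper52.SG

theorem card_sub {V : Type} [CommGroup V] (S : Subgroup V) (φ : V →* V) :
    Nat.card S = Nat.card (S.map φ) * Nat.card {v : V // v ∈ S ∧ φ v = 1} := by
  let g : S →* V := φ.comp S.subtype
  have h1 := g.ker.index_mul_card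
  rw [Subgroup.index_ker] at h1
  have h2 : g.range = S.map φ := by
    rw [MonoidHom.range_comp, Subgroup.range_subtype]
  have h3 : Nat.card g.ker = Nat.card {v : V // v ∈ S ∧ φ v = 1} := by
    refine Nat.card_congr ⟨fun v => ⟨v.1.1, v.1.2, v.2⟩, fun v => ⟨⟨v.1, v.2.1⟩, v.2.2⟩,
      fun _ => rfl, fun _ => rfl⟩
  rw [h2, h3] at h1
  exact h1.symm

theorem card_step {M : Type} [Group M] [Finite M] (A A₁ : Subgroup M) (c : M) (r : ℕ)
    (hr : r.Prime) (hle : A₁ ≤ A) (hcA : c ∈ A) (hc : c ∉ A₁) (hcr : c ^ r = 1)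
    (hcomm : ∀ a ∈ A, ∀ a' ∈ A, a * a' = a' * a) (hsup : A ≤ A₁ ⊔ zpowers c) :
    Nat.card A = r * Nat.card A₁ := by
  let B : Subgroup A := A₁.subgroupOf A
  haveI : B.Normal := ⟨fun n hn g => by
    have : g * n * g⁻¹ = n := by
      rw [show g * n = n * g from Subtype.ext (hcomm g g.2 n n.2), mul_assoc, mul_inv_cancel,
        mul_one]
    rwa [this]⟩
  let c' : A := ⟨c, hcA⟩
  have h1 : zpowers (QuotientGroup.mk' B c') = ⊤ := by
    rw [eq_top_iff]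
    rintro y -
    obtain ⟨x, rfl⟩ := QuotientGroup.mk'_surjective B y
    let S : Subgroup A := (zpowers (QuotientGroup.mk' B c')).comap (QuotientGroup.mk' B)
    have h2 : A₁ ⊔ zpowers c ≤ S.map A.subtype := by
      refine sup_le ?_ ?_
      · intro a ha
        refine ⟨⟨a, hle ha⟩, ?_, rfl⟩
        show QuotientGroup.mk' B ⟨a, hle ha⟩ ∈ zpowers (QuotientGroup.mk' B c')
        have : QuotientGroup.mk' B ⟨a, hle ha⟩ = 1 := by
          rw [← MonoidHom.mem_ker, QuotientGroup.ker_mk']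
          exact ha
        rw [this]
        exact one_mem _
      · rw [zpowers_le]
        exact ⟨c', mem_zpowers _, rfl⟩
    obtain ⟨z, hz, e⟩ := h2 (hsup x.2)
    have : z = x := Subtype.ext e
    rw [← this]
    exact hz
  have h3 : orderOf (QuotientGroup.mk' B c') = r := by
    haveI : Fact r.Prime := ⟨hr⟩
    refine orderOf_eq_prime ?_ ?_
    · rw [← map_pow]
      have : c' ^ r = 1 := Subtype.ext hcr
      rw [this, map_one]
    · rw [Ne, ← MonoidHom.mem_ker, QuotientGroup.ker_mk']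
      exact hc
  have h4 : Nat.card (A ⧸ B) = r := by
    rw [← Nat.card_zpowers, h1, Nat.card_congr Subgroup.topEquiv.toEquiv] at h3
    exact h3
  rw [Subgroup.card_eq_card_quotient_mul_card_subgroup B, h4]
  congr 1
  exact Nat.card_congr (Subgroup.subgroupOfEquivOfLe hle).toEquiv

theorem conj_inv {M : Type} [Group M] (x : M) (P : Subgroup M) (r : ℕ) (hr : 0 < r)
    (hx : x ^ r = 1) (h : ∀ q ∈ P, x⁻¹ * q * x ∈ P) : ∀ q ∈ P, x * q * x⁻¹ ∈ P := by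
  have key : ∀ n : ℕ, ∀ q ∈ P, (x ^ n)⁻¹ * q * x ^ n ∈ P := by
    intro n
    induction n with
    | zero =>
      intro q hq
      simpa using hq
    | succ n ih =>
      intro q hq
      have h1 := h _ (ih q hq)
      have h2 : x⁻¹ * ((x ^ n)⁻¹ * q * x ^ n) * x = (x ^ (n + 1))⁻¹ * q * x ^ (n + 1) := by
        rw [pow_succ]
        group
      rwa [h2] at h1
  intro q hq
  obtain ⟨m, rfl⟩ : ∃ m, r = m + 1 := ⟨r - 1, by omega⟩
  have h1 : x ^ m = x⁻¹ := by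
    rw [eq_inv_iff_mul_eq_one, ← pow_succ, hx]
  have h2 := key m q hq
  rwa [h1, inv_inv] at h2

/-- the fixed points -/
def fixS {V : Type} [Group V] (B : Subgroup (MulAut V)) : Subgroup V where
  carrier := {v | ∀ b ∈ B, b v = v}
  one_mem' := fun b _ => map_one b
  mul_mem' := fun {v w} hv hw b hb => by rw [map_mul, hv b hb, hw b hb]
  inv_mem' := fun {v} hv b hb => by rw [map_inv, hv b hb]

theorem t (hCD : S_CD) (hCD2 : S_CD2) (hTRI : S_TRI) (hAXB : S_AXB) (hENDL : S_ENDL) :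
    Pool.Agent.Helper52.SG.S_LEME := by
  classical
  intro V _ _ r hr hr2 hV A Q hA hAr hQ hrQ hAQ hB
  by_contra hcon
  push Not at hcon
  obtain ⟨a₀, ha₀, q₀, hq₀, hne₀⟩ := hcon
  haveI : Fact r.Prime := ⟨hr⟩
  haveI : Finite (MulAut V) :=
    Finite.of_injective (fun f : MulAut V => (f.toEquiv : V ≃ V)) MulEquiv.toEquiv_injective
  -- the maximal `A₁`
  obtain ⟨A₁, hA₁, hmax⟩ := Set.Finite.exists_maximal
    (s := {B : Subgroup (MulAut V) | B ≤ A ∧ ∃ a ∈ A, ∃ q ∈ Q, (∀ b ∈ B, b * q = q * b) ∧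
      a * q ≠ q * a}) (Set.toFinite _) ⟨⊥, bot_le, a₀, ha₀, q₀, hq₀, by
        intro b hb
        rw [mem_bot] at hb
        rw [hb, one_mul, mul_one], hne₀⟩
  obtain ⟨hA₁A, a₁, ha₁, q₁, hq₁, hq₁c, hne₁⟩ := hA₁
  set W : Subgroup (MulAut V) := Q ⊓ centralizer (A₁ : Set (MulAut V)) with hW
  have hWmem : ∀ w, w ∈ W ↔ w ∈ Q ∧ ∀ b ∈ A₁, b * w = w * b := by
    intro w
    rw [hW, mem_inf, mem_centralizer_iff]
    rfl
  have hWinv : ∀ a ∈ A, ∀ w ∈ W, a⁻¹ * w * a ∈ W := by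
    intro a ha w hw
    rw [hWmem] at hw ⊢
    refine ⟨hAQ a ha w hw.1, fun b hb => ?_⟩
    have h1 := hA a ha b (hA₁A hb)
    have h2 := hw.2 b hb
    have h3 : b * a⁻¹ = a⁻¹ * b := by
      rw [mul_inv_eq_iff_eq_mul, mul_assoc, ← h1, inv_mul_cancel_left]
    calc b * (a⁻¹ * w * a) = (b * a⁻¹) * w * a := by group
      _ = a⁻¹ * (b * w) * a := by rw [h3]; group
      _ = a⁻¹ * w * (b * a) := by rw [h2]; group
      _ = a⁻¹ * w * a * b := by rw [← h1]; group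
  have hWQ : W ≤ Q := inf_le_left
  have hrW : ¬ r ∣ Nat.card W := fun h => hrQ (h.trans (Subgroup.card_dvd_of_le hWQ))
  have hWcomm : ∀ x ∈ W, ∀ y ∈ W, x * y = y * x := fun x hx y hy => hQ x (hWQ hx) y (hWQ hy)
  set gW : Set (MulAut V) := {x | ∃ w ∈ W, ∃ a ∈ A, x = w⁻¹ * (a⁻¹ * w * a)} with hgW
  set W' : Subgroup (MulAut V) := closure gW with hW'
  have hW'W : W' ≤ W := by
    rw [hW', closure_le]
    rintro x ⟨w, hw, a, ha, rfl⟩
    exact W.mul_mem (W.inv_mem hw) (hWinv a ha w hw)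
  have hW'inv : ∀ a ∈ A, ∀ w ∈ W', a⁻¹ * w * a ∈ W' := by
    intro a ha w hw
    have h1 : W' ≤ W'.comap (MulAut.conj a⁻¹).toMonoidHom := by
      rw [hW', closure_le]
      rintro x ⟨w, hw, b, hb, rfl⟩
      show a⁻¹ * (w⁻¹ * (b⁻¹ * w * b)) * a⁻¹⁻¹ ∈ closure gW
      refine subset_closure ⟨a⁻¹ * w * a, hWinv a ha w hw, b, hb, ?_⟩
      have h1 := hA a ha b hb
      have h3 : a⁻¹ * b⁻¹ = b⁻¹ * a⁻¹ := by rw [← mul_inv_rev, ← mul_inv_rev, h1]
      calc a⁻¹ * (w⁻¹ * (b⁻¹ * w * b)) * a⁻¹⁻¹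
          = a⁻¹ * w⁻¹ * a * (a⁻¹ * b⁻¹) * w * (b * a) := by group
        _ = a⁻¹ * w⁻¹ * a * (b⁻¹ * a⁻¹) * w * (a * b) := by rw [h3, ← h1]
        _ = (a⁻¹ * w * a)⁻¹ * (b⁻¹ * (a⁻¹ * w * a) * b) := by group
    have h2 := h1 hw
    have h3 : (MulAut.conj a⁻¹).toMonoidHom w = a⁻¹ * w * a := by
      show a⁻¹ * w * a⁻¹⁻¹ = _
      rw [inv_inv]
    rw [mem_comap, h3] at h2
    exact h2
  have hpA : ∀ B ≤ A, IsPGroup r B := by
    intro B hBA b
    refine ⟨1, ?_⟩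
    rw [pow_one]
    exact Subtype.ext (hAr b (hBA b.2))
  have hcop : (Nat.card W).Coprime (Nat.card A) := by
    obtain ⟨n, hn⟩ := IsPGroup.iff_card.1 (hpA A le_rfl)
    rw [hn]
    exact Nat.Coprime.pow_right _ ((Nat.Prime.coprime_iff_not_dvd hr).2 hrW).symm
  have hCDW : ∀ w ∈ W', (∀ a ∈ A, w * a = a * w) → w = 1 := by
    intro w hw hwa
    exact hCD2 (MulAut V) W A (Set.toFinite _) (Set.toFinite _) hWcomm
      (fun a ha w hw => hWinv a ha w hw) hcop w hw hwa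
  have hW'ne : W' ≠ ⊥ := by
    intro h
    have h1 : q₁⁻¹ * (a₁⁻¹ * q₁ * a₁) ∈ W' :=
      subset_closure ⟨q₁, (hWmem q₁).2 ⟨hq₁, hq₁c⟩, a₁, ha₁, rfl⟩
    rw [h, mem_bot] at h1
    have h2 : q₁ = a₁⁻¹ * q₁ * a₁ := inv_mul_eq_one.1 h1
    apply hne₁
    calc a₁ * q₁ = a₁ * (a₁⁻¹ * q₁ * a₁) := by rw [← h2]
      _ = q₁ * a₁ := by group
  -- the dagger
  have hdag : ∀ x ∈ A, x ∉ A₁ → ∀ w ∈ W', w * x = x * w → w = 1 := by
    intro x hx hxA w hw hwx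
    have h1 : ¬ (A₁ ⊔ zpowers x ≤ A₁) := fun h =>
      hxA (h ((le_sup_right : zpowers x ≤ A₁ ⊔ zpowers x) (mem_zpowers x)))
    have h2 : A₁ ⊔ zpowers x ∉ {B : Subgroup (MulAut V) | B ≤ A ∧ ∃ a ∈ A, ∃ q ∈ Q,
        (∀ b ∈ B, b * q = q * b) ∧ a * q ≠ q * a} := fun h => h1 (hmax h le_sup_left)
    refine hCDW w hw fun a ha => ?_
    by_contra hne
    apply h2
    refine ⟨sup_le hA₁A (by rw [zpowers_le]; exact hx), a, ha, w, hWQ (hW'W hw), ?_, fun h =>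
      hne h.symm⟩
    intro b hb
    have h3 : A₁ ⊔ zpowers x ≤ centralizer ({w} : Set (MulAut V)) := by
      refine sup_le ?_ ?_
      · intro c hc
        rw [mem_centralizer_singleton_iff]
        exact ((hWmem w).1 (hW'W hw)).2 c hc
      · rw [zpowers_le, mem_centralizer_singleton_iff]
        exact hwx.symm
    have h4 := h3 hb
    rw [mem_centralizer_singleton_iff] at h4
    exact h4
  -- the element `x`
  have hAA₁ : ¬ A ≤ A₁ := by
    intro h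
    exact hne₁ (hq₁c a₁ (h ha₁))
  obtain ⟨x, hxA, hxA₁⟩ := Set.not_subset.1 hAA₁
  have hsup : A ≤ A₁ ⊔ zpowers x := by
    by_contra hn
    obtain ⟨b, hbA, hbn⟩ := Set.not_subset.1 hn
    apply hW'ne
    rw [eq_bot_iff]
    intro w hw
    rw [mem_bot]
    refine hTRI (MulAut V) W' b x r hr (Set.toFinite _)
      (fun y hy z hz => hWcomm y (hW'W hy) z (hW'W hz))
      (fun h => hrW (h.trans (Subgroup.card_dvd_of_le hW'W))) (hW'inv b hbA) (hW'inv x hxA)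
      (hA b hbA x hxA) (hAr b hbA) (hAr x hxA) (fun w hw h => hdag x hxA hxA₁ w hw h) ?_ w hw
    intro k w hw h
    refine hdag (b * x ^ k) (A.mul_mem hbA (A.pow_mem hxA k)) ?_ w hw h
    intro hk
    apply hbn
    have h1 : (b * x ^ k) * (x ^ k)⁻¹ ∈ A₁ ⊔ zpowers x :=
      mul_mem ((le_sup_left : A₁ ≤ A₁ ⊔ zpowers x) hk)
        ((le_sup_right : zpowers x ≤ A₁ ⊔ zpowers x) (inv_mem (pow_mem (mem_zpowers x) k)))
    rwa [mul_inv_cancel_right] at h1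
  have hcard : Nat.card A = r * Nat.card A₁ :=
    card_step A A₁ x r hr hA₁A hxA hxA₁ (hAr x hxA) hA hsup
  -- the subgroup `Q₁`
  obtain ⟨Q₁, hQ₁, hmin⟩ := Set.Finite.exists_minimal
    (s := {P : Subgroup (MulAut V) | P ≤ W' ∧ P ≠ ⊥ ∧ ∀ q ∈ P, x⁻¹ * q * x ∈ P})
    (Set.toFinite _) ⟨W', le_rfl, hW'ne, hW'inv x hxA⟩
  obtain ⟨hQ₁W, hQ₁ne, hQ₁x⟩ := hQ₁
  have hQ₁Q : Q₁ ≤ Q := hQ₁W.trans (hW'W.trans hWQ)
  have hrQ₁ : ¬ r ∣ Nat.card Q₁ := fun h => hrQ (h.trans (Subgroup.card_dvd_of_le hQ₁Q))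
  have hQ₁comm : ∀ q ∈ Q₁, ∀ q' ∈ Q₁, q * q' = q' * q := fun q hq q' hq' =>
    hQ q (hQ₁Q hq) q' (hQ₁Q hq')
  have hQ₁A₁ : ∀ a ∈ A₁, ∀ q ∈ Q₁, a * q = q * a := fun a ha q hq =>
    ((hWmem q).1 (hW'W (hQ₁W hq))).2 a ha
  have hQ₁x' : ∀ q ∈ Q₁, x * q * x⁻¹ ∈ Q₁ := conj_inv x Q₁ r hr.pos (hAr x hxA) hQ₁x
  have hVp : IsPGroup r V := fun v => ⟨1, by rw [pow_one]; exact hV v⟩
  set V₁ : Subgroup V := fixS A₁ with hV₁
  have hV₁mem : ∀ v, v ∈ V₁ ↔ ∀ a ∈ A₁, a v = v := fun v => Iff.rfl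
  have hV₁q : ∀ q ∈ Q₁, ∀ v ∈ V₁, q v ∈ V₁ := by
    intro q hq v hv a ha
    have h1 := hQ₁A₁ a ha q hq
    calc a (q v) = (a * q) v := rfl
      _ = (q * a) v := by rw [h1]
      _ = q (a v) := rfl
      _ = q v := by rw [hv a ha]
  have hV₁x : ∀ v ∈ V₁, x v ∈ V₁ := by
    intro v hv a ha
    have h1 := hA a (hA₁A ha) x hxA
    calc a (x v) = (a * x) v := rfl
      _ = (x * a) v := by rw [h1]
      _ = x (a v) := rfl
      _ = x v := by rw [hv a ha]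
  set Y : Subgroup V := closure {y : V | ∃ v ∈ V₁, ∃ q ∈ Q₁, y = v⁻¹ * q v} with hY
  have hYV₁ : Y ≤ V₁ := by
    rw [hY, closure_le]
    rintro y ⟨v, hv, q, hq, rfl⟩
    exact V₁.mul_mem (V₁.inv_mem hv) (hV₁q q hq v hv)
  have hYne : Y ≠ ⊥ := by
    intro h
    apply hQ₁ne
    rw [eq_bot_iff]
    intro q hq
    rw [mem_bot]
    refine hAXB V r hr hVp A₁ Q₁ (hpA A₁ hA₁A) hrQ₁ hQ₁A₁ ?_ q hq
    intro v hv q hq
    have h1 : v⁻¹ * q v ∈ Y := subset_closure ⟨v, hv, q, hq, rfl⟩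
    rw [h, mem_bot, inv_mul_eq_one] at h1
    exact h1.symm
  have hYq : ∀ q ∈ Q₁, ∀ y ∈ Y, q y ∈ Y := by
    intro q hq
    have h1 : Y ≤ Y.comap q.toMonoidHom := by
      conv_lhs => rw [hY]
      rw [closure_le]
      rintro y ⟨v, hv, q', hq', rfl⟩
      show q (v⁻¹ * q' v) ∈ Y
      refine subset_closure ⟨q v, hV₁q q hq v hv, q', hq', ?_⟩
      have h2 := hQ₁comm q hq q' hq'
      rw [map_mul, map_inv]
      congr 1
      calc q (q' v) = (q * q') v := rfl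
        _ = (q' * q) v := by rw [h2]
        _ = q' (q v) := rfl
    exact fun y hy => h1 hy
  have hYx : ∀ y ∈ Y, x y ∈ Y := by
    have h1 : Y ≤ Y.comap x.toMonoidHom := by
      conv_lhs => rw [hY]
      rw [closure_le]
      rintro y ⟨v, hv, q, hq, rfl⟩
      show x (v⁻¹ * q v) ∈ Y
      refine subset_closure ⟨x v, hV₁x v hv, x * q * x⁻¹, hQ₁x' q hq, ?_⟩
      rw [map_mul, map_inv]
      congr 1
      calc x (q v) = x (q (x⁻¹ (x v))) := by
            have h5 : (x⁻¹ : MulAut V) (x v) = v := MulAut.inv_apply_self V x v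
            rw [h5]
        _ = (x * q * x⁻¹) (x v) := rfl
    exact fun y hy => h1 hy
  have hYfix : ∀ y ∈ Y, (∀ q ∈ Q₁, q y = y) → y = 1 := by
    intro y hy hyq
    refine hCD V Q₁ ?_ y (closure_mono ?_ hy) hyq
    · obtain ⟨n, hn⟩ := IsPGroup.iff_card.1 hVp
      rw [hn]
      exact Nat.Coprime.pow_left _ ((Nat.Prime.coprime_iff_not_dvd hr).2 hrQ₁)
    · rintro y ⟨v, _, q, hq, rfl⟩
      exact ⟨v, q, hq, rfl⟩
  let φ : V →* V :=
    { toFun := fun v => v⁻¹ * x v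
      map_one' := by rw [map_one, inv_one, one_mul]
      map_mul' := fun v w => by
        rw [map_mul, mul_inv]
        exact mul_mul_mul_comm _ _ _ _ }
  have hφ : ∀ v, φ v = 1 ↔ x v = v := by
    intro v
    show v⁻¹ * x v = 1 ↔ _
    rw [inv_mul_eq_one, eq_comm]
  have hc1 := card_sub V₁ φ
  have hc2 := card_sub Y φ
  have hc3 := hB A₁ hA₁A hcard
  have e1 : Nat.card {v : V // ∀ b ∈ A₁, b v = v} = Nat.card V₁ := rfl
  have e2 : Nat.card {v : V // ∀ a ∈ A, a v = v} = Nat.card {v : V // v ∈ V₁ ∧ φ v = 1} := by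
    refine Nat.card_congr (Equiv.subtypeEquivRight fun v => ?_)
    rw [hφ]
    constructor
    · intro h
      exact ⟨fun a ha => h a (hA₁A ha), h x hxA⟩
    · rintro ⟨h1, h2⟩ a ha
      have h3 : A₁ ⊔ zpowers x ≤ MulAction.stabilizer (MulAut V) v := by
        refine sup_le ?_ ?_
        · intro b hb
          rw [MulAction.mem_stabilizer_iff]
          exact h1 b hb
        · rw [zpowers_le, MulAction.mem_stabilizer_iff]
          exact h2
      exact h3 (hsup ha)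
  have e3 : Nat.card {y : V // y ∈ Y ∧ φ y = 1} = Nat.card {y : V // y ∈ Y ∧ x y = y} := by
    refine Nat.card_congr (Equiv.subtypeEquivRight fun v => ?_)
    rw [hφ]
  rw [e1, e2, hc1] at hc3
  rw [e3] at hc2
  have hpos : 0 < Nat.card {v : V // v ∈ V₁ ∧ φ v = 1} := by
    haveI : Nonempty {v : V // v ∈ V₁ ∧ φ v = 1} := ⟨⟨1, V₁.one_mem, map_one φ⟩⟩
    exact Nat.card_pos
  have hr1 : Nat.card (V₁.map φ) ≤ r := Nat.le_of_mul_le_mul_right hc3 hpos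
  have hr2' : Nat.card (Y.map φ) ≤ r :=
    (Subgroup.card_le_of_le (Subgroup.map_mono hYV₁)).trans hr1
  refine hENDL V r hr hr2 hVp Q₁ x Y hQ₁ne hQ₁comm hrQ₁ ⟨1, by rw [pow_one]; exact hAr x hxA⟩
    hQ₁x (fun q hq h => hdag x hxA hxA₁ q (hQ₁W hq) h.symm) ?_ hYne hYq hYx hYfix ?_
  · intro Q' hQ' hQ'x
    by_cases hb : Q' = ⊥
    · exact Or.inl hb
    · exact Or.inr (le_antisymm hQ' (hmin ⟨hQ'.trans hQ₁W, hb, hQ'x⟩ hQ'))
  · rw [hc2]
    exact Nat.mul_le_mul_right _ hr2'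

end Pool.Agent.Helper26.SG.LEME
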