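import Pool.Agent.Helper52.SG.Goals
import Mathlib

/-!
# Project SG, packet MAIN
-/

set_option autoImplicit false

namespace Pool.Agent.Helper26.SG.MAIN

open Subgroup Pool.H83Shunkov Pool.Agent.Helper29.SH Pool.Agent.Helper52.SG

section quot

variable {H : Type} [Group H] (R : Subgroup H) [R.Normal]

theorem mem_of_mk_mem {M : Subgroup H} (hRM : R ≤ M) {x : H}
    (hx : QuotientGroup.mk' R x ∈ M.map (QuotientGroup.mk' R)) : x ∈ M := by
  obtain ⟨m, hm, e⟩ := hx
  have h1 : QuotientGroup.mk' R (m⁻¹ * x) = 1 := by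
    rw [map_mul, map_inv, e, inv_mul_cancel]
  have h2 : m⁻¹ * x ∈ R := by
    rwa [← MonoidHom.mem_ker, QuotientGroup.ker_mk'] at h1
  have h3 := M.mul_mem hm (hRM h2)
  rwa [mul_inv_cancel_left] at h3

theorem rfm_bot (h : RFm R) : RFm (⊥ : Subgroup (H ⧸ R)) := by
  intro x hx
  obtain ⟨y, rfl⟩ := QuotientGroup.mk'_surjective R x
  have hy : y ∉ R := by
    intro hy
    apply hx
    rw [mem_bot]
    rwa [← MonoidHom.mem_ker, QuotientGroup.ker_mk']
  obtain ⟨M, hMn, hMf, hRM, hyM⟩ := h y hy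
  refine ⟨M.map (QuotientGroup.mk' R), hMn.map _ (QuotientGroup.mk'_surjective R), ?_, bot_le, ?_⟩
  · exact finiteIndex_map hMf (QuotientGroup.mk'_surjective R)
  · intro h1
    exact hyM (mem_of_mk_mem R hRM h1)

end quot

theorem pr_map {H E : Type} [Group H] [Group E] (f : H →* E) (b g : H) :
    Pr (f b) (f g) = (Pr b g).map f := by
  unfold Pr
  rw [MonoidHom.map_closure, Set.image_pair]
  simp

theorem t (hCLM : S_CLM) (hFTB : S_FTB) (hLFF : S_LFF) (hFINQ : S_FINQ) :
    Pool.Agent.Helper52.SG.S_MAIN := by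
  classical
  intro G _ a p hSt hp2 hLG S hS
  obtain ⟨t, ht, hSt'⟩ := subset_closure_finset (s := Group.conjugatesOfSet ({a} : Set G)) S hS
  have hconj : ∀ x ∈ t, ∃ g : G, g⁻¹ * a * g = x := by
    intro x hx
    have := ht hx
    simp only [Group.mem_conjugatesOfSet_iff, Set.mem_singleton_iff, exists_eq_left] at this
    obtain ⟨c, hc⟩ := isConj_iff.1 this
    exact ⟨c⁻¹, by simpa using hc⟩
  have hStt : ∀ x ∈ t, St x p := by
    intro x hx
    obtain ⟨g, rfl⟩ := hconj x hx
    exact hSt.conj g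
  suffices hfin : ((closure (t : Set G) : Subgroup G) : Set G).Finite from
    hfin.subset ((closure_le _).2 hSt')
  set H : Subgroup G := closure (t : Set G) with hH
  by_contra hinf
  have hHinf : Infinite H := Set.infinite_coe_iff.2 hinf
  let T : Finset H := t.attach.image (fun x => (⟨x.1, subset_closure x.2⟩ : H))
  have hTmem : ∀ s ∈ T, (s : G) ∈ t := by
    intro s hs
    obtain ⟨x, _, rfl⟩ := Finset.mem_image.1 hs
    exact x.2
  have hTset : (T : Set H) = ((↑) : H → G) ⁻¹' (t : Set G) := by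
    ext s
    constructor
    · intro hs
      exact hTmem s hs
    · intro hs
      exact Finset.mem_image.2 ⟨⟨s.1, hs⟩, Finset.mem_attach _ _, rfl⟩
  have hTtop : closure (T : Set H) = ⊤ := by
    rw [hTset]
    exact closure_closure_coe_preimage
  have hStT : ∀ s ∈ T, St (s : G) p := fun s hs => hStt _ (hTmem s hs)
  have hPFT : ∀ s ∈ T, PairFinite s := fun s hs => PairFinite.subgroup s.2 (hStT s hs).pair
  obtain ⟨R, hRn, hQinf, hRF⟩ := hLG H ⟨T, hTtop, hPFT⟩ hHinf
  have hsurj := QuotientGroup.mk'_surjective R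
  have hfinE : Finite (H ⧸ R) := by
    refine hFINQ (H ⧸ R) (T.image (QuotientGroup.mk' R)) ?_ ?_ ?_
    · rw [Finset.coe_image, ← MonoidHom.map_closure, hTtop, ← MonoidHom.range_eq_map,
        MonoidHom.range_eq_top]
      exact hsurj
    · intro s hs
      obtain ⟨b, hb, rfl⟩ := Finset.mem_image.1 hs
      exact (hPFT b hb).map _ hsurj
    · intro s hs
      obtain ⟨b, hb, rfl⟩ := Finset.mem_image.1 hs
      have hSb := hStT b hb
      obtain ⟨M, hMn, hMf, hRM, hM⟩ := hCLM G H b p hSb R hRn hRF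
      have hNn : (M.map (QuotientGroup.mk' R)).Normal := hMn.map _ hsurj
      have hNf : (M.map (QuotientGroup.mk' R)).FiniteIndex := finiteIndex_map hMf hsurj
      have hbp : b ^ p = 1 := by
        apply Subtype.ext
        rw [Subgroup.coe_pow, hSb.pow]
        rfl
      have hpow : (QuotientGroup.mk' R b) ^ p = 1 := by
        rw [← map_pow, hbp, map_one]
      obtain ⟨F, hFN, hFn, hFinv, hFfpf, hFloc, hFcomm⟩ := hFTB (H ⧸ R) (QuotientGroup.mk' R b)
        (M.map (QuotientGroup.mk' R)) p hSb.hp hp2 hpow hNn (by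
          rintro g' ⟨g, hg, rfl⟩
          rw [pr_map]
          exact (hPFT b hb g).image _) (by
          rintro g' ⟨g, hg, rfl⟩ t' ht' htN hcomm
          rw [pr_map] at ht'
          obtain ⟨u, hu, rfl⟩ := ht'
          have huM : u ∈ M := mem_of_mk_mem R hRM htN
          have h1 : b⁻¹ * (u⁻¹ * b * u) ∈ R := by
            rw [← QuotientGroup.ker_mk' R, MonoidHom.mem_ker]
            rw [map_mul, map_mul, map_mul, map_inv, map_inv, mul_assoc, ← hcomm,
              inv_mul_cancel_left, inv_mul_cancel]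
          have h2 := hM (Pr b g) (hPFT b hb g) (subset_closure (by simp)) u hu huM h1
          rwa [← QuotientGroup.ker_mk' R, MonoidHom.mem_ker] at h2)
      exact ⟨_, F, hNn, hNf, hFN, hFn,
        hLFF (H ⧸ R) _ F p hSb.hp hpow hFinv hFfpf hFloc (rfm_bot R hRF), hFcomm⟩
  exact hQinf.not_finite hfinE

end Pool.Agent.Helper26.SG.MAIN
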